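import Pool.Agent.V11227.PC5

/-!
# Generalized PCG recognition is NP-hard

An instance is a finite simple graph `G` and a set `S` of non-edges of `G`, both given by Boolean
matrices.  The question is whether there is a pairwise compatibility graph on the vertices of `G`
which contains all edges of `G` and no pair of `S`.

Reduction from betweenness.  The graph is joined completely to four vertices `w0, w1, w2, w3` with
edges `w0 w2` and `w1 w3` and pairs `w0 w1`, `w1 w2`, `w2 w3`, `w3 w0` in `S`.  By the four-point
condition one of these pairs has distance greater than `dmax`, and then no other pair of `S` can have
distance greater than `dmax`; so all of them have distance less than `dmin`, and the instance asks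
for a tree metric with a threshold.  Near pairs of a tree metric form a graph without long holes and
without 3-suns; from this we extract a linear order.  Conversely, an order gives a caterpillar.
-/

set_option autoImplicit false

namespace Pool.Agent.Results.MP_9390ab_lc.GeneralizedPCGNPHard

open Pool.Agent.NPC Pool.Agent.V11227.PC

/-- Generalized PCG recognition is `NP`-hard. -/
theorem result : NPHardP GenPCG := hardI_genPCG.toNPHardP

end Pool.Agent.Results.MP_9390ab_lc.GeneralizedPCGNPHard
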